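import Pool.Agent.Q33.Fam.Final
import Pool.Agent.Q33.Fam.W15

set_option autoImplicit false

namespace Pool.Agent.Results.MP_ccf7f2_nt.Fifteen

open Finset Pool.Agent.Q33.Fam

lemma ft0 (N : ℕ) : W15.ft 0 N = (((15 : ℤ) * N + 4) * w2 N : ℤ) := by
  unfold W15.ft
  push_cast
  rw [w2_fact]
  simp only [mul_zero, zero_add, pow_zero]
  rw [Nat.factorial_succ (2 * N)]
  push_cast
  have h1 : (N.factorial : ℚ) ≠ 0 := by exact_mod_cast N.factorial_ne_zero
  have h2 : ((2 * N).factorial : ℚ) ≠ 0 := by exact_mod_cast Nat.factorial_ne_zero _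
  have h3 : (2 * (N : ℚ) + 1) ≠ 0 := by positivity
  field_simp
  ring

/-- the term of the Wilf-Zeilberger sum -/
lemma gt_eq (k M : ℕ) : W15.gt k M = -27 * (((k + M + 1 : ℕ) : ℤ) * cb (k + M + 1) *
    ((-1) ^ k * (cb M * ((3 * (k + M + 1) - 1).choose (2 * k + M + 1) : ℕ))) : ℤ) := by
  unfold W15.gt
  push_cast
  have e0 : 3 * (k + M + 1) - 1 = 3 * k + 3 * M + 2 := by omega
  rw [e0, cb_fact, cb_fact, Nat.cast_choose ℚ (show 2 * k + M + 1 ≤ 3 * k + 3 * M + 2 by omega)]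
  have e1 : 3 * k + 3 * M + 2 - (2 * k + M + 1) = k + 2 * M + 1 := by omega
  have e2 : 2 * k + 2 * M + 2 = 2 * (k + M + 1) := by ring
  rw [e1, e2, Nat.factorial_succ (3 * k + 3 * M + 2), add_zero]
  push_cast
  have h1 : ((k + M + 1).factorial : ℚ) ≠ 0 := by exact_mod_cast Nat.factorial_ne_zero _
  have h2 : ((k + 2 * M + 1).factorial : ℚ) ≠ 0 := by exact_mod_cast Nat.factorial_ne_zero _
  have h3 : (M.factorial : ℚ) ≠ 0 := by exact_mod_cast Nat.factorial_ne_zero _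
  have h4 : ((2 * k + M + 1).factorial : ℚ) ≠ 0 := by exact_mod_cast Nat.factorial_ne_zero _
  field_simp
  ring

/-- the second factor -/
def X (n : ℕ) : ℤ := ∑ k ∈ range n, (-1) ^ k * (cb (n - 1 - k) * ((3 * n - 1).choose (n + k) : ℕ))

lemma S_eq (n : ℕ) : S 15 4 (-27) w2 n = n * cb n * X n := by
  have h := tele1 (-27) 15 4 w2 W15.ft W15.gt ?_ ?_ ft0 n
  · have h2 : ∑ k ∈ range n, W15.gt k (n - 1 - k) = (-27) * ((n * cb n * X n : ℤ) : ℚ) := by
      unfold X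
      push_cast
      rw [mul_sum, mul_sum]
      apply sum_congr rfl
      intro k hk
      rw [mem_range] at hk
      rw [gt_eq]
      have e1 : k + (n - 1 - k) + 1 = n := by omega
      have e2 : 2 * k + (n - 1 - k) + 1 = n + k := by omega
      rw [e1, e2]
      push_cast
      ring
    rw [h2] at h
    have h3 : ((n * cb n * X n : ℤ) : ℚ) = ((S 15 4 (-27) w2 n : ℤ) : ℚ) := by
      push_cast at h ⊢
      linarith
    exact_mod_cast h3.symm
  · intro k M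
    have := W15.Wgen k M
    push_cast
    exact this
  · intro k
    have := W15.Wb0 k
    push_cast
    exact this

lemma top_even (n : ℕ) (hn : 1 ≤ n) : 2 ∣ (3 * n - 1).choose (2 * n - 1) := by
  obtain ⟨m, rfl⟩ : ∃ m, n = m + 1 := ⟨n - 1, by omega⟩
  have e1 : 3 * (m + 1) - 1 = 3 * m + 2 := by omega
  have e2 : 2 * (m + 1) - 1 = 2 * m + 1 := by omega
  rw [e1, e2]
  have h := Nat.add_one_mul_choose_eq (3 * m + 2) (2 * m + 1)
  -- (3m+3) C(3m+2, 2m+1) = C(3m+3, 2m+2) (2m+2)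

  have h2 : 3 * (3 * m + 2).choose (2 * m + 1) = (3 * m + 2 + 1).choose (2 * m + 1 + 1) * 2 := by
    have : (m + 1) * (3 * (3 * m + 2).choose (2 * m + 1)) = (m + 1) * ((3 * m + 2 + 1).choose (2 * m + 1 + 1) * 2) := by
      linarith
    exact Nat.eq_of_mul_eq_mul_left (by omega) this
  omega

lemma X_even (n : ℕ) : (2 : ℤ) ∣ X n := by
  unfold X
  apply dvd_sum
  intro k hk
  rw [mem_range] at hk
  apply Dvd.dvd.mul_left
  rcases Nat.eq_zero_or_pos (n - 1 - k) with h | h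
  · apply Dvd.dvd.mul_left
    have e : n + k = 2 * n - 1 := by omega
    rw [e]
    exact_mod_cast top_even n (by omega)
  · exact Dvd.dvd.mul_right (cb_even _ h) _

lemma part (n : ℕ) : 2 * D n ∣ 27 * S 15 4 (-27) w2 n := by
  obtain ⟨x, hx⟩ := X_even n
  obtain ⟨y, hy⟩ := X_even (n + 1)
  have h1 := S_eq n
  have h2 := S_eq (n + 1)
  obtain ⟨t, ht⟩ := w2_dvd n
  rw [S_succ, ht, h1, hx, hy] at h2
  push_cast at h2
  rw [cb_succ] at h2
  have hcb : cb n ≠ 0 := (cb_pos n).ne'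
  have h3 : -(27 * (2 * n * x)) = (2 * (n : ℤ) + 1) * (4 * y - (15 * n + 4) * t) := by
    apply mul_left_cancel₀ hcb
    linear_combination h2
  have h4 : (2 * (n : ℤ) + 1) ∣ 27 * x := by
    have hcop : IsCoprime (2 * (n : ℤ) + 1) (2 * (n : ℤ)) := ⟨1, -1, by ring⟩
    apply hcop.dvd_of_dvd_mul_left
    refine ⟨-(4 * y - (15 * n + 4) * t), ?_⟩
    linear_combination (-1 : ℤ) * h3
  obtain ⟨z, hz⟩ := h4
  refine ⟨z, ?_⟩
  rw [h1, hx]
  unfold D
  linear_combination (2 * n * cb n) * hz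

/-- the numbers `a_n` of the problem -/
noncomputable def a (n : ℕ) : ℚ :=
  (∑ j ∈ range n, (-27) ^ (n - 1 - j) * (15 * (j : ℚ) + 4) * ((2 * j).choose j : ℚ) ^ 2 * ((3 * j).choose j : ℚ)) /
    (2 * n * (2 * n + 1) * ((2 * n).choose n : ℚ))

lemma a_eq (n : ℕ) : a n = ((S 15 4 (-27) w2 n : ℤ) : ℚ) / ((2 * D n : ℤ) : ℚ) := by
  unfold a S D w2 cb
  push_cast
  congr 1
  · apply sum_congr rfl
    intro k _
    ring
  · ring

/-- Question Q2: for every `n ≥ 1`, `a n` is an integer unless `2n+1` is a power of 3, and if `2n+1` is a power of 3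
then `3 a n` is an integer not divisible by 3. -/
theorem result : ∀ n : ℕ, 1 ≤ n →
    ((∀ m : ℕ, 1 ≤ m → 2 * n + 1 ≠ 3 ^ m) → ∃ z : ℤ, a n = z) ∧
    ((∃ m : ℕ, 1 ≤ m ∧ 2 * n + 1 = 3 ^ m) → ∃ z : ℤ, 3 * a n = z ∧ ¬ (3 : ℤ) ∣ z) := by
  intro n hn
  have hD := D_pos n hn
  have hp := part n
  have hp6 : 2 * D n ∣ 6 ^ 3 * S 15 4 (-27) w2 n := by
    have : (6 : ℤ) ^ 3 * S 15 4 (-27) w2 n = (27 * S 15 4 (-27) w2 n) * 8 := by ring
    rw [this]
    exact Dvd.dvd.mul_right hp 8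
  obtain ⟨κ, rfl⟩ : ∃ κ, n = κ + 1 := ⟨n - 1, by omega⟩
  rw [a_eq]
  have em : (3 : ℤ) * (-9) = -27 := by norm_num
  constructor
  · intro h
    have h' : ∀ j : ℕ, 2 * κ + 3 ≠ 3 ^ j := by
      intro j hj
      rcases Nat.eq_zero_or_pos j with h0 | h0
      · subst h0
        rw [pow_zero] at hj
        omega
      · exact h j h0 (by omega)
    obtain ⟨r, hr, h3⟩ := three_A 15 4 (-9) w2 Y2 Y2_ne w2_Y Y2_h1 κ (Or.inl h')
    rw [em] at h3
    have hdvd : 2 * D (κ + 1) ∣ S 15 4 (-27) w2 (κ + 1) := by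
      apply combine3 3 27 (2 * r) (by norm_num) (by omega) hp6 hp
      rw [mul_assoc]
      exact mul_dvd_mul_left 2 h3
    obtain ⟨z, hz, _⟩ := rat_int _ _ (by omega) hdvd
    exact ⟨z, hz⟩
  · rintro ⟨j, hj1, hj⟩
    obtain ⟨⟨r, hr, h3⟩, h4⟩ := three_B 15 4 (-9) w2 Y2 Y2_ne w2_Y Y2_h1 κ j (by omega) (Y2_h2 κ j (by omega))
      (by norm_num)
    rw [em] at h3 h4
    have hdvd : 2 * D (κ + 1) ∣ 3 * S 15 4 (-27) w2 (κ + 1) := by
      apply combine3 3 27 (2 * r) (by norm_num) (by omega) _ _ _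
      · have : (6 : ℤ) ^ 3 * (3 * S 15 4 (-27) w2 (κ + 1)) = (6 ^ 3 * S 15 4 (-27) w2 (κ + 1)) * 3 := by ring
        rw [this]
        exact Dvd.dvd.mul_right hp6 3
      · have : (27 : ℤ) * (3 * S 15 4 (-27) w2 (κ + 1)) = (27 * S 15 4 (-27) w2 (κ + 1)) * 3 := by ring
        rw [this]
        exact Dvd.dvd.mul_right hp 3
      · rw [mul_assoc]
        exact mul_dvd_mul_left 2 h3
    exact rat_three _ _ 2 (by omega) hdvd h4

end Pool.Agent.Results.MP_ccf7f2_nt.Fifteen
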